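import Mathlib
import Pool.Agent.N70.ES.VocWC

/-!
# The groups `G ≀ A_n` for almost all `n`

The definitions are in the files `Voc.lean`, `VocC.lean`, `VocQ.lean` of `Pool/Agent/N70/EP`,
`Pool/Agent/N70/EO/VocE.lean` and `Pool/Agent/N70/ES/VocW.lean`:

* `AltWreath G n` is the wreath product `G ≀ A_n`.
* `AltRealizable G n`: for every field `K` of characteristic `0`, `G ≀ A_n` is the Galois group of a
  Galois extension of `K(t)` in which `K` is algebraically closed; if `K` is Hilbertian, for example
  a number field, it is a Galois group over `K`.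
* For a homomorphism `α : B → W` and a character `χ : W → {1, -1}`, `TwPow α χ n` is the group of all
  `(x, ρ)` with `x` in the wreath product `B ≀ S_n`, `ρ` in `W`, such that `α` maps all coordinates
  of `x` to `ρ` and the sign of the permutation of `x` is `χ ρ`. It is an extension of `W` by
  `(ker α) ≀ A_n`.
* `TwIff α χ n`: for every field `K` of characteristic `0`, `TwPow α χ n` is regularly realizable
  over `K` if and only if `W` is; if `K` is Hilbertian, for example a number field, `TwPow α χ n` is a
  Galois group over `K` if and only if `W` is.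
* `IsSplittingIndex α I`: `I` is the greatest common divisor of the indices of the subgroups of `W`
  over which `α` splits.
* `TwSplit α χ n`: the projection `twPr α χ n : TwPow α χ n → W` splits.
* `SplitDegrees α I`: if `twPr α χ n` splits, then `I` divides `n`; for large `n` it splits for all
  `χ` if `I` is odd and divides `n`, and for `χ = 1` if `2 I` divides `n`.
* `AlmostAllNumbers A`: the number of the `n < x` without the property `A` is `o(x)`.
* `EvenFamily A`: `A` holds for all `n = q r (2 k + 1)`, `q ≥ 4` even, `r ≥ r₀(q)`, `k ≥ k₀(q, r)`;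
  `OddFamily N A`: `A` holds for all `n = u r (2 k + 1)`, `u ≡ 3 mod 4` prime to `N`, `r ≥ r₀(u)` odd,
  `k ≥ k₀(u, r)`.

First part: for EVERY finite group `G` (no realization of `G` is assumed) `AltRealizable G n` holds
for almost all natural numbers `n`; namely for all `n = q r (2 k + 1)`, where `q ≥ 4` is even,
`r ≥ r₀(G, q)` and `k ≥ k₀(G, q, r)`, and for all `n = u r (2 k + 1)`, where `u ≡ 3 mod 4` is prime
to the order of `G`, `r ≥ r₀(G, u)` is odd and `k ≥ k₀(G, u, r)`.

Second part (the first part is the case `W = 1`): for every surjective homomorphism `α : B → W` of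
finite groups, with any kernel, `TwIff α χ n` holds for almost all natural numbers `n` and all `χ`
such that the extension `twPr α χ n : TwPow α χ n → W` splits. Let `I` be the index of `α`. For large
`n` this is so for all `χ` if `I` is odd and divides `n`, and for `χ = 1` if `2 I` divides `n`; and
it is so only if `I` divides `n`.
-/

set_option autoImplicit false

open Pool.Agent.N70.EP.Voc
open Pool.Agent.N70.EO.Voc (AlmostAllNumbers)
open Pool.Agent.N70.ES.Voc

theorem Pool.Agent.Results.MP_dadaab_nt.AlternatingWreathDensity.result :
    (∀ (G : Type) [Group G] [Finite G],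
      AlmostAllNumbers (fun n => AltRealizable G n) ∧ EvenFamily (fun n => AltRealizable G n) ∧
      OddFamily (Nat.card G) (fun n => AltRealizable G n)) ∧
    ∀ (W B : Type) [Group W] [Finite W] [Group B] [Finite B] (α : B →* W),
      Function.Surjective α →
      AlmostAllNumbers (fun n => ∀ χ : W →* ℤˣ, TwSplit α χ n → TwIff α χ n) ∧
      ∀ I : ℕ, IsSplittingIndex α I → SplitDegrees α I :=
  ⟨fun G _ _ => ⟨Pool.Agent.N70.EO.alt_dens8 G,
    Pool.Agent.N70.EQ.alt_struct7 Pool.Agent.N70.EQ.hyp G,
    Pool.Agent.N70.EO.alt_struct8 G⟩,
    fun W B _ _ _ _ α hα => ⟨Pool.Agent.N70.ES.twIff_dens9 α hα,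
      fun I hI => Pool.Agent.N70.ES.splitDegrees α hα I hI⟩⟩
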