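import Mathlib
import Pool.Prelude.Def_F_b1b78ff3
import Pool.Agent.N600.NS.Stm

/-!
# The index theorem for symmetric fibre powers of nonsplit embedding problems

Let `K` be a field of characteristic zero, `L/K` a finite Galois extension with group `Γ`, and
`α : B → Γ` ANY surjective homomorphism of finite groups (an embedding problem, split or not, weakly
solvable or not).  The symmetric fibre power `SymEP α n → Γ` is the group of all
`((b_1, …, b_n; π), γ)` in `(B ≀ S_n) × Γ` with `α(b_i) = γ` for all `i`.

1. For all large `n` the embedding problem `SymEP α n → Γ` has a regular solution (over `K(t)`) if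
   and only if it has a weak solution over `K`, if and only if the index of `α` divides `n`: the
   index is the greatest common divisor of the degrees `[K' : K]` of the finite extensions `K'` over
   which `α` has a weak solution.  If `K` is Hilbertian, this is also equivalent to the existence of
   a proper solution over `K`.  If `|Γ|` divides `n`, the bound is explicit: `n ≥ ((3 |B| + 2)!)^3`.
2. Consequently, every embedding problem over a field of characteristic zero whose kernel is a direct
   product of wreath products `G_i ≀ S_{n_i}`, where the `G_i` are ARBITRARY nontrivial finite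
   groups with trivial centre, `|Out G_i|` divides `n_i` and `n_i ≥ ((3 |Aut G_i| + 2)!)^3`, has a
   regular solution.  A finite group `X` with such a normal subgroup `N` is a Galois group over
   a number field `K` if and only if `X / N` is.
3. Over fields of positive characteristic the twofold symmetric fibre powers of all embedding
   problems are regularly solvable.
-/

set_option autoImplicit false

open Nfff32c05
open Pool.Agent.H391R2 (Wr)
open Pool.Agent.H391R2.T4 (HilbField hilb_numberField RegSol WeakSol SymEP symProj)
open Pool.Agent.N600.UK (ProperSol)
open Pool.Agent.N600.NS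
open Pool.Agent.TH444.TW (RegularOver)

theorem Pool.Agent.Results.MP_dadaab_nt.NonsplitFibrePowers.result :
    -- the index theorem
    (∀ (K L : Type) [Field K] [CharZero K] [Field L] [Algebra K L] [FiniteDimensional K L]
      [IsGalois K L] (B : Type) [Group B] [Finite B] (α : B →* (L ≃ₐ[K] L)),
      Function.Surjective α → IndexTheorem K L B α) ∧
    -- kernels which are products of wreath products
    (∀ (I : Type) [Finite I] (G : I → Type) [∀ i, Group (G i)] [∀ i, Finite (G i)]
      [∀ i, Nontrivial (G i)] (n : I → ℕ), (∀ i, Subgroup.center (G i) = ⊥) →
      (∀ i, (MulAut.conj : G i →* MulAut (G i)).range.index ∣ n i) →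
      (∀ i, ((3 * Nat.card (MulAut (G i)) + 2).factorial) ^ 3 ≤ n i) →
      ExtensionsRealizable (∀ i, Wr (G i) (n i)) ∧ KernelsSolvable (∀ i, Wr (G i) (n i))) ∧
    -- twofold powers over arbitrary fields
    (∀ (K L : Type) [Field K] [Field L] [Algebra K L] [FiniteDimensional K L]
      [IsGalois K L] (B : Type) [Group B] [Finite B] (α : B →* (L ≃ₐ[K] L)),
      Function.Surjective α → TwofoldTheorem K L B α) := by
  refine ⟨?_, ?_, ?_⟩
  · intro K L _ _ _ _ _ _ B _ _ α hα
    exact ⟨index_main K L B α hα, uniform_main K L B α hα⟩
  · intro I _ G _ _ _ n hZ hd hn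
    refine ⟨fun X _ N _ hN hfin => ⟨?_, ?_, ?_⟩, ?_⟩
    · intro K _ _
      exact kernel_real hZ hd hn K (hilb_numberField K) X N hN hfin
    · intro K _ _ hK
      exact kernel_real hZ hd hn K hK X N hN hfin
    · intro K _ _
      exact kernel_regular hZ hd hn K X N hN hfin
    · intro K L X _ _ _ _ _ _ _ α hα hι
      have h1 : RegSol K L X α := gz_prod hZ hd hn K L X α hα hι
      refine ⟨fun hK => ?_, h1⟩
      have hW : ∀ i, Finite (Wr (G i) (n i)) := fun i => Pool.Agent.H391R2.T4.finite_wr _ _
      have hX : Finite X := Pool.Agent.TH59.WX.finite_of_kernel α hι.some.symm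
      exact Pool.Agent.TH59.WX.hil_of_reg K L X hK α h1
  · intro K L _ _ _ _ _ B _ _ α hα m n hm hn
    exact reg_twofold K L B α hα m hm n hn
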