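import Mathlib
import Pool.Prelude.Def_F_b1b78ff3
import Pool.Agent.N600.ZQ.T6

/-!
# Groups with a normal subgroup `∏ G_i ≀ S_{n_i}` and a solvable quotient

Let `G_i` be finitely many ARBITRARY nontrivial finite groups with trivial centre, let
`n_i ≥ ((3 |G_i| + 2)!)^3`, and let `X` be a group with a normal subgroup `N` of finite index which
is isomorphic to the direct product of the wreath products `G_i ≀ S_{n_i}` (no condition on the
extension `1 → N → X → X / N → 1`, which may permute the factors and need not split).

1. There are a finite group `Q` and a surjection `Q → X / N` whose kernel is contained in the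
   Frattini subgroup of `Q`, such that `X` is a Galois group over every number field (every
   Hilbertian field) over which `Q` is one, and `X` is the group of a regular extension of `K(t)`
   for every field `K` for which `Q` is.  The group `Q` is solvable (nilpotent) if `X / N` is, and
   only primes which divide `|X / N|` divide `|Q|`.
2. So, if `X / N` is solvable and `K` is a number field, it suffices that the finite solvable groups
   are realizable over `K`, which is the theorem of Shafarevich.
3. If all Sylow subgroups of `X / N` are cyclic (for example if `X / N` is cyclic or of squarefree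
   order), then `X` is a Galois group over every number field and every Hilbertian field, and of a
   regular extension of `K(t)` for every field `K`.
-/

set_option autoImplicit false

open Nfff32c05
open Pool.Agent.H391R2 (Wr)
open Pool.Agent.H391R2.T4 (HilbField hilb_numberField)
open Pool.Agent.TH444.TW (RegularOver)

namespace Pool.Agent.Results.MP_dadaab_nt.SolvableQuotients

/-- `π` is a Frattini cover: it is surjective and its kernel is contained in the Frattini subgroup,
the intersection of the maximal subgroups. -/
def FrattiniCover {Q Y : Type} [Group Q] [Group Y] (π : Q →* Y) : Prop :=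
  Function.Surjective π ∧ π.ker ≤ frattini Q

/-- `X` is realizable over every number field and every Hilbertian field over which `Q` is, and the
group of a regular extension of `K(t)` for every field `K` for which `Q` is. -/
def RealizableIf (X Q : Type) [Group X] [Group Q] : Prop :=
  (∀ (K : Type) [Field K] [NumberField K], IsRealizable K Q → IsRealizable K X) ∧
  (∀ (K : Type) [Field K], HilbField K → IsRealizable K Q → IsRealizable K X) ∧
  (∀ (K : Type) [Field K], RegularOver K Q → RegularOver K X)

/-- The reduction to a Frattini cover `Q` of `Y`. -/
def CoverTheorem (X Y : Type) [Group X] [Group Y] : Prop :=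
  ∃ (Q : Type) (_ : Group Q) (_ : Finite Q) (π : Q →* Y), FrattiniCover π ∧ RealizableIf X Q ∧
    (Group.IsSolvable Y → Group.IsSolvable Q) ∧ (Group.IsNilpotent Y → Group.IsNilpotent Q) ∧
    (∀ p : ℕ, p.Prime → p ∣ Nat.card Q → p ∣ Nat.card Y)

/-- All finite solvable groups are realizable over `K`: this is the theorem of Shafarevich if `K` is
a number field. -/
def SolvableRealizable (K : Type) [Field K] : Prop :=
  ∀ (Q : Type) [Group Q] [Finite Q], Group.IsSolvable Q → IsRealizable K Q

/-- Unconditional realizations. -/
def Realized (X : Type) [Group X] : Prop :=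
  (∀ (K : Type) [Field K] [NumberField K], IsRealizable K X) ∧
  (∀ (K : Type) [Field K], HilbField K → IsRealizable K X) ∧
  (∀ (K : Type) [Field K], RegularOver K X)

end Pool.Agent.Results.MP_dadaab_nt.SolvableQuotients

open Pool.Agent.Results.MP_dadaab_nt.SolvableQuotients in
theorem Pool.Agent.Results.MP_dadaab_nt.SolvableQuotients.result :
    ∀ (I : Type) [Finite I] (G : I → Type) [∀ i, Group (G i)] [∀ i, Finite (G i)]
      [∀ i, Nontrivial (G i)] (n : I → ℕ), (∀ i, Subgroup.center (G i) = ⊥) →
      (∀ i, ((3 * Nat.card (G i) + 2).factorial) ^ 3 ≤ n i) →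
      ∀ (X : Type) [Group X] (N : Subgroup X) [N.Normal],
        Nonempty (N ≃* ∀ i, Wr (G i) (n i)) → Finite (X ⧸ N) →
        CoverTheorem X (X ⧸ N) ∧
        (Group.IsSolvable (X ⧸ N) → ∀ (K : Type) [Field K] [NumberField K],
          SolvableRealizable K → IsRealizable K X) ∧
        (IsZGroup (X ⧸ N) → Realized X) := by
  intro I _ G _ _ _ n hZ hn X _ N _ hN hfin
  obtain ⟨Q, i1, i2, π, hπ, hQ⟩ := Pool.Agent.N600.ZQ.frat_main hZ hn X N hN hfin
  refine ⟨⟨Q, i1, i2, π, hπ, hQ, hπ.solvable, hπ.nilpotent, hπ.prime⟩, ?_, ?_⟩
  · intro hs K _ _ hK
    exact hQ.1 K (hK Q (hπ.solvable hs))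
  · intro hz
    exact Pool.Agent.N600.ZQ.z_main hZ hn X N hN hfin
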