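import Mathlib
import Pool.Prelude.Def_F_b1b78ff3
import Pool.Agent.N600.UK.Main

/-!
# A class of universal kernels

`Univ` (file `Pool/Agent/N600/UK/Defs.lean`) is a class of finite groups which contains the twofold
wreath products `(G ≀ S_m) ≀ S_n` of EVERY nontrivial finite group `G` with trivial centre (with
`|Out G|` dividing `m` and `m`, `n` large), the wreath products `G ≀ S_n` if `Inn G` has a
complement in `Aut G`, complete groups which are regular over all infinite fields, and which is
closed under direct products, direct factors, characteristic extensions, and under `T ↦ T ≀ S_n` for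
`n ≥ 2 (|T| + 2)`.

If a finite group `X` has a normal subgroup `N` which belongs to this class, then `X` is a Galois
group over a number field `K` if and only if `X / N` is; the same holds for all Hilbertian fields `K`,
and for regular extensions of `K(t)` for all fields `K`.  Every embedding problem whose kernel is in
the class (split or not) has a proper solution over every Hilbertian field, and a regular solution
over `K(t)` for every field `K`.
-/

set_option autoImplicit false

open Nfff32c05 Pool.Agent.N600.UK
open Pool.Agent.H391R2.T4 (HilbField hilb_numberField RegSol)
open Pool.Agent.TH444.TW (RegularOver)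

theorem Pool.Agent.Results.MP_dadaab_nt.UniversalKernels.result :
    ∀ (T : Type) [Group T], Univ T →
      -- groups
      (∀ (X : Type) [Group X] (N : Subgroup X) [N.Normal], Nonempty (N ≃* T) → Finite (X ⧸ N) →
        (∀ (K : Type) [Field K] [NumberField K], IsRealizable K X ↔ IsRealizable K (X ⧸ N)) ∧
        (∀ (K : Type) [Field K], HilbField K → (IsRealizable K X ↔ IsRealizable K (X ⧸ N))) ∧
        (∀ (K : Type) [Field K], RegularOver K X ↔ RegularOver K (X ⧸ N))) ∧
      -- embedding problems
      (∀ (K L X : Type) [Field K] [Field L] [Algebra K L] [FiniteDimensional K L]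
        [IsGalois K L] [Group X] (α : X →* (L ≃ₐ[K] L)), Function.Surjective α →
        Nonempty (α.ker ≃* T) →
        (HilbField K → ProperSol K L X α) ∧ RegSol K L X α) := by
  intro T _ hT
  refine ⟨fun X _ N _ hN hfin => ⟨?_, ?_, ?_⟩, ?_⟩
  · intro K _ _
    exact hT.real_hilb K (hilb_numberField K) X N hN hfin
  · intro K _ hK
    exact hT.real_hilb K hK X N hN hfin
  · intro K _
    exact hT.regular K X N hN hfin
  · intro K L X _ _ _ _ _ _ α hα hι
    exact ⟨fun hK => hT.hil K hK L X α hα hι, hT.reg K L X α hα hι⟩
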